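import Pool.Agent.H71.FX.Targets2

set_option autoImplicit false

namespace Pool.Agent.H94.FX

open Pool.Agent.H71.FX Pool.Agent.H71.PF

section
variable {α : Type} (m : Sk α) (K0 : Set α) (κ : ℕ)

open Classical in
/-- the embeddings -/
noncomputable def hm : Option (Fin κ) → α → α ⊕ (K0 × Fin κ)
  | none, z => Sum.inl z
  | some t, z => if hz : z ∈ K0 then Sum.inr (⟨z, hz⟩, t) else Sum.inl z

/-- the retraction -/
def rt : α ⊕ (K0 × Fin κ) → α
  | Sum.inl z => z
  | Sum.inr (z, _) => z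

/-- the base point of an element -/
def bt : α ⊕ (K0 × Fin κ) → Option (Fin κ)
  | Sum.inl _ => none
  | Sum.inr (_, t) => some t

theorem hm_mem (t : Fin κ) (z : α) (hz : z ∈ K0) : hm K0 κ (some t) z = Sum.inr (⟨z, hz⟩, t) :=
  dif_pos hz

theorem hm_not (t : Option (Fin κ)) (z : α) (hz : z ∉ K0) : hm K0 κ t z = Sum.inl z := by
  cases t with
  | none => rfl
  | some t => exact dif_neg hz

theorem rt_hm (t : Option (Fin κ)) (z : α) : rt K0 κ (hm K0 κ t z) = z := by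
  by_cases hz : z ∈ K0
  · cases t with
    | none => rfl
    | some t => rw [hm_mem K0 κ t z hz]; rfl
  · rw [hm_not K0 κ t z hz]; rfl

theorem hm_bt (x : α ⊕ (K0 × Fin κ)) : hm K0 κ (bt K0 κ x) (rt K0 κ x) = x := by
  rcases x with x | ⟨⟨z, hz⟩, t⟩
  · rfl
  · exact hm_mem K0 κ t z hz

/-- the new structure -/
noncomputable def mm : Sk (α ⊕ (K0 × Fin κ)) where
  f x := hm K0 κ (bt K0 κ x) (m.f (rt K0 κ x))
  R j l := ∃ t l', l = l'.map (hm K0 κ t) ∧ m.R j l'
  w x i := hm K0 κ (bt K0 κ x) (m.w (rt K0 κ x) i)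

theorem mm_f (hf : ∀ x, m.f x ∈ K0 → x ∈ K0) (t : Option (Fin κ)) (z : α) :
    (mm m K0 κ).f (hm K0 κ t z) = hm K0 κ t (m.f z) := by
  show hm K0 κ (bt K0 κ (hm K0 κ t z)) (m.f (rt K0 κ (hm K0 κ t z))) = _
  rw [rt_hm]
  by_cases hz : z ∈ K0
  · cases t with
    | none => rfl
    | some t =>
      rw [hm_mem K0 κ t z hz]
      rfl
  · have h1 : m.f z ∉ K0 := fun h => hz (hf z h)
    rw [hm_not K0 κ _ _ h1, hm_not K0 κ _ _ h1]

end

theorem pf_CL : T_CL := by
  intro P α _ m haK hwf K0 hfree κ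
  obtain ⟨-, hf, hn⟩ := hfree
  refine ⟨α ⊕ (K0 × Fin κ), inferInstance, mm m K0 κ, ?_, ⟨?_, ?_⟩, ?_⟩
  · rw [Nat.card_sum, Nat.card_prod, Nat.card_coe_set_eq, Nat.card_eq_fintype_card (α := Fin κ),
      Fintype.card_fin, mul_comm]
  · intro x y i hi
    have h1 : ∀ z, m.w z i ∉ K0 := fun z hz => hn _ hz ⟨z, i, hi, 0, Nat.zero_le _, rfl⟩
    show hm K0 κ _ (m.w (rt K0 κ x) i) = hm K0 κ _ (m.w (rt K0 κ y) i)
    rw [hm_not K0 κ _ _ (h1 _), hm_not K0 κ _ _ (h1 _), hwf.1 (rt K0 κ x) (rt K0 κ y) i hi]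
  · intro x
    show hm K0 κ _ (m.w (rt K0 κ x) P.a) = x
    rw [hwf.2]
    exact hm_bt K0 κ x
  · intro x'
    refine ⟨rt K0 κ x', hm K0 κ (bt K0 κ x'), ?_, ?_, ?_⟩
    · intro i _ k _
      have hs : Function.Semiconj (hm K0 κ (bt K0 κ x')) m.f (mm m K0 κ).f := fun z =>
        (mm_f m K0 κ hf (bt K0 κ x') z).symm
      exact ((hs.iterate_right k) (m.w (rt K0 κ x') i)).symm
    · intro a _ b _ hab
      have := congrArg (rt K0 κ) hab
      rwa [rt_hm, rt_hm] at this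
    · intro j l _ _ _ _
      constructor
      · rintro ⟨t, l', hl, hR⟩
        have h1 := congrArg (List.map (rt K0 κ)) hl
        rw [List.map_map, List.map_map] at h1
        have h2 : ∀ (t : Option (Fin κ)) (l : List α), List.map (rt K0 κ ∘ hm K0 κ t) l = l := by
          intro t l
          have h3 : (rt K0 κ ∘ hm K0 κ t) = id := funext fun z => rt_hm K0 κ t z
          rw [h3, List.map_id]
        rw [h2, h2] at h1
        rw [h1]
        exact hR
      · intro hR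
        exact ⟨_, l, rfl, hR⟩

end Pool.Agent.H94.FX
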