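import Pool.Agent.H71.FX.Targets

set_option autoImplicit false

namespace Pool.Agent.H94.FX

open Pool.Agent.H71.FX Pool.Agent.H71.PF Pool.Agent.H8.PL

theorem pf_D2 (dw : T_DW) : T_D2 := by
  intro Q e b
  have lf := dw [6] [] b b
  have rt := dw [7] [] b b
  have bt := dw [8] [] b b
  have tp := dw [9] [] b b
  have d1 := dw [10] [] b b
  have k1 := dw [11] [] b b
  have d2 := dw [12] [] b b
  have k2 := dw [13] [] b b
  have k1r := dw [11, 1] [1] b b
  have d1u := dw [10, 3] [3] b b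
  have k2u := dw [13, 3] [3] b b
  have d2r := dw [12, 1] [1] b b
  have lfL := dw [6, 5] [5] b b
  have tpL := dw [9, 5] [5] b b
  have Lu := dw [5, 3] [3, 5] b b
  refine ⟨?_, ?_, ?_, ?_⟩
  · exact ((lf.imp k1).and ((rt.not.imp (k1r.iff (k1.and d1))).and
      (tp.not.imp ((d1u.iff (d1.iff k1).not).and (rt.imp (k1.and d1).not))))).congr
      fun _ _ _ _ _ => Iff.rfl
  · exact ((bt.imp k2).and ((tp.not.imp (k2u.iff (k2.and d2))).and
      (rt.not.imp ((d2r.iff (d2.iff k2).not).and (tp.imp (k2.and d2).not))))).congr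
      fun _ _ _ _ _ => Iff.rfl
  · exact (lfL.and ((tpL.iff tp).and (tp.not.imp Lu))).congr fun _ _ _ _ _ => Iff.rfl
  · exact (lf.and bt).congr fun _ _ _ _ _ => Iff.rfl

end Pool.Agent.H94.FX
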